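import Mathlib
import Pool.Agent.Lib.helper12.Six
import Pool.Agent.Lib.helper12.Real

namespace Pool.Agent.Results.MP_7bf690_al.Small

open Pool.Agent.Lib.helper12.Six Pool.Agent.Lib.helper12.Real Filter

def n : ℕ → A ℚ
  | 0 => mk 0 1 0 0 0 0
  | 1 => mk 0 0 1 0 0 0
  | _ => mk 0 0 0 1 0 0

def R : Subring (A ℚ) := Subring.closure (Set.range n ∪ Set.range (fun _ : ℕ => (0 : A ℚ)))

lemma nil (j : ℕ) : IsNilpotent (n j) := by
  refine ⟨2, ?_⟩
  rcases j with _ | _ | j <;> simp [n, pow_two, mk_mul, zero_eq]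

lemma nR (j : ℕ) : n j ∈ R := Subring.subset_closure (Or.inl ⟨j, rfl⟩)

lemma int {r : A ℚ} (hr : r ∈ R) : ∃ a b c d e f : ℤ,
    r = mk (a : ℚ) (b : ℚ) (c : ℚ) (d : ℚ) (e : ℚ) (f : ℚ) := by
  induction hr using Subring.closure_induction with
  | mem x hx =>
    rcases hx with ⟨j, rfl⟩ | ⟨j, rfl⟩
    · rcases j with _ | _ | j
      · exact ⟨0, 1, 0, 0, 0, 0, by simp [n]⟩
      · exact ⟨0, 0, 1, 0, 0, 0, by simp [n]⟩
      · exact ⟨0, 0, 0, 1, 0, 0, by simp [n]⟩
    · exact ⟨0, 0, 0, 0, 0, 0, by simp [zero_eq]⟩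
  | zero => exact ⟨0, 0, 0, 0, 0, 0, by simp [zero_eq]⟩
  | one => exact ⟨1, 0, 0, 0, 0, 0, by simp [one_eq]⟩
  | add x y _ _ hx hy =>
    obtain ⟨a, b, c, d, e, f, rfl⟩ := hx
    obtain ⟨a', b', c', d', e', f', rfl⟩ := hy
    exact ⟨a + a', b + b', c + c', d + d', e + e', f + f', by simp [mk_add]⟩
  | neg x _ hx =>
    obtain ⟨a, b, c, d, e, f, rfl⟩ := hx
    exact ⟨-a, -b, -c, -d, -e, -f, by push_cast; rfl⟩
  | mul x y _ _ hx hy =>
    obtain ⟨a, b, c, d, e, f, rfl⟩ := hx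
    obtain ⟨a', b', c', d', e', f', rfl⟩ := hy
    exact ⟨a * a', a * b' + b * a', a * c' + c * a', a * d' + d * a',
      a * e' + e * a' + b * c' + d * b' + b * d', a * f' + f * a' + d * c' + c * d',
      by simp [mk_mul]⟩

lemma redQ (q : ℚ) (h : ∃ᶠ p : ℕ in atTop, ∃ z : ℤ, q = p * z) : q = 0 := by
  obtain ⟨p, ⟨z, rfl⟩, hp⟩ := (h.and_eventually (tendsto_natCast_atTop_atTop (R := ℚ)
    |>.eventually_gt_atTop |q|)).exists
  by_contra h0
  have hz : z ≠ 0 := by rintro rfl; simp at h0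
  have : (1 : ℚ) ≤ |(z : ℚ)| := by exact_mod_cast Int.one_le_abs hz
  rw [abs_mul, Nat.abs_cast] at hp
  nlinarith [Nat.cast_nonneg (α := ℚ) p]

lemma hred : Red R := by
  intro v h
  induction v using ind with
  | h a b c d e f =>
  have h' : ∃ᶠ p : ℕ in atTop, ∃ a' b' c' d' e' f' : ℤ, a = p * a' ∧ b = p * b' ∧ c = p * c' ∧
      d = p * d' ∧ e = p * e' ∧ f = p * f' := h.mono (by
    rintro p ⟨-, r, hr, h⟩
    obtain ⟨a', b', c', d', e', f', rfl⟩ := int hr
    rw [← Nat.cast_smul_eq_nsmul ℚ, smul_mk, mk_inj] at h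
    exact ⟨a', b', c', d', e', f', h⟩)
  rw [zero_eq, mk_inj]
  refine ⟨redQ _ (h'.mono ?_), redQ _ (h'.mono ?_), redQ _ (h'.mono ?_), redQ _ (h'.mono ?_),
    redQ _ (h'.mono ?_), redQ _ (h'.mono ?_)⟩ <;>
  · rintro p ⟨a', b', c', d', e', f', h1, h2, h3, h4, h5, h6⟩
    exact ⟨_, by assumption⟩

lemma loc0 (a : A ℚ) (m : ℚ) (hm : m ≠ 0) (h : a * a = m • a) : a = 0 ∨ a = m • 1 := by
  induction a using ind with
  | h a b c d e f =>
  simp only [mk_mul, smul_mk, mk_inj, zero_eq, one_eq, smul_eq_mul] at *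
  obtain ⟨h1, h2, h3, h4, h5, h6⟩ := h
  have : a * (a - m) = 0 := by linear_combination h1
  rcases mul_eq_zero.mp this with h | h
  · left
    subst h
    simp only [zero_mul, mul_zero, add_zero, zero_eq_mul, hm, false_or] at h2 h3 h4
    subst h2 h3 h4
    simp_all
  · right
    have ha : a = m := by linarith
    subst ha
    have hb : b = 0 := by apply mul_left_cancel₀ hm; linarith
    have hc : c = 0 := by apply mul_left_cancel₀ hm; linarith
    have hd : d = 0 := by apply mul_left_cancel₀ hm; linarith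
    subst hb hc hd
    have he : e = 0 := by apply mul_left_cancel₀ hm; linarith
    have hf : f = 0 := by apply mul_left_cancel₀ hm; linarith
    simp [he, hf]

theorem result : ∃ (G : Type) (_ : AddCommGroup G), IsAddTorsionFree G ∧ Module.rank ℤ G < 8 ∧
    Nontrivial G ∧
    (∀ (B C : AddSubgroup G) (m : ℕ), 0 < m → Disjoint B C → (∀ g : G, m • g ∈ B ⊔ C) →
      B = ⊥ ∨ C = ⊥) ∧
    (∃ φ ψ : AddMonoid.End G, φ * ψ ≠ ψ * φ) ∧
    (∀ a : AddMonoid.End G, a ≠ 0 → ∃ c ∈ Subring.center (AddMonoid.End G),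
      ∃ d ∈ Subring.center (AddMonoid.End G), c ≠ 0 ∧ d ≠ 0 ∧ a * c = d) := by
  obtain ⟨G, ev, h1, hrat, hinj, hev, hsur, happ⟩ :=
    realize (R := R) n (fun _ => 0) nil (by simp) rfl hred
  haveI : IsAddTorsionFree (A ℚ) := .of_module_rat _
  refine ⟨G, inferInstance, inferInstance, ?_, ⟨⟨1, h1⟩, 0, ?_⟩, ?_, ?_, ?_⟩
  · have h := LinearMap.rank_le_of_injective G.subtype.toIntLinearMap G.subtype_injective
    rw [← IsFractionRing.rank_right_eq (R := ℤ) ℚ (N := A ℚ)] at h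
    refine h.trans_lt ?_
    show Module.rank ℚ (ℚ × ℚ × ℚ × ℚ × ℚ × ℚ) < 8
    simp only [rank_prod', Module.rank_self]
    norm_num
  · simp [Subtype.ext_iff, one_eq, zero_eq, mk_inj]
  · intro B C m hm hd H
    simp only [AddSubgroup.mem_sup] at H
    choose b hb c hc hbc using H
    have uniq : ∀ g, ∀ x ∈ B, ∀ y ∈ C, x + y = m • g → b g = x := by
      intro g x hx y hy h
      have h2 : b g - x = y - c g := by
        rw [sub_eq_sub_iff_add_eq_add, hbc, ← h, add_comm]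
      have := AddSubgroup.disjoint_def.mp hd (sub_mem (hb g) hx) (h2 ▸ sub_mem hy (hc g))
      exact sub_eq_zero.mp this
    let φ : AddMonoid.End G := AddMonoidHom.mk' b (fun x y =>
      uniq _ _ (add_mem (hb x) (hb y)) _ (add_mem (hc x) (hc y)) (by
        rw [smul_add, ← hbc, ← hbc]; abel))
    have hB : ∀ x ∈ B, φ x = m • x := fun x hx =>
      uniq _ _ (nsmul_mem hx _) 0 (zero_mem _) (add_zero _)
    have hC : ∀ x ∈ C, φ x = 0 := fun x hx =>
      uniq _ _ (zero_mem _) _ (nsmul_mem hx _) (zero_add _)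
    have h2 : φ * φ = m • φ := by
      ext1 x
      exact hB _ (hb x)
    have h3 := congrArg ev h2
    rw [map_mul, map_nsmul, ← Nat.cast_smul_eq_nsmul ℚ] at h3
    rcases loc0 _ _ (by exact_mod_cast hm.ne') h3 with h | h
    · left
      rw [eq_bot_iff]
      intro x hx
      have := happ φ x
      rw [hB x hx, h, zero_mul] at this
      exact Subtype.ext (tf hm.ne' this)
    · right
      rw [eq_bot_iff]
      intro x hx
      have := happ φ x
      rw [hC x hx, h, smul_mul_assoc, one_mul, Nat.cast_smul_eq_nsmul] at this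
      exact Subtype.ext (tf hm.ne' this.symm)
  · obtain ⟨φ, hφ⟩ := hsur _ (nR 0)
    obtain ⟨ψ, hψ⟩ := hsur _ (nR 1)
    refine ⟨φ, ψ, fun h => ?_⟩
    have := congrArg ev h
    simp [hφ, hψ, n, mk_mul, mk_inj] at this
  · refine ce_of (R := R) ev hinj (fun φ => hrat (hev φ)) hsur ?_
    intro v _ hv
    have cm : ∀ a d e f, ∀ r ∈ R, mk a 0 0 d e f * r = r * mk a 0 0 d e f :=
      fun a d e f r _ => (Subring.mem_center_iff.mp (cen a d e f) r).symm
    induction v using ind with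
    | h a b c d e f =>
    by_cases ha : a = 0
    · by_cases hb : b = 0 ∧ c = 0
      · obtain ⟨rfl, rfl⟩ := hb
        exact ⟨1, one_mem _, by simp, by simpa using hv, by simpa using cm _ _ _ _⟩
      · refine ⟨mk 0 0 0 1 0 0, nR 2, cm _ _ _ _, by simpa [mk_mul, ha, zero_eq, mk_inj] using hb,
          by simpa [mk_mul, ha] using cm _ _ _ _⟩
    · refine ⟨mk 0 0 0 0 0 1, ?_, cm _ _ _ _, by simpa [mk_mul, zero_eq, mk_inj] using ha,
          by simpa [mk_mul] using cm _ _ _ _⟩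
      simpa [n, mk_mul] using mul_mem (nR 2) (nR 1)

end Pool.Agent.Results.MP_7bf690_al.Small
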